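import Mathlib
import Pool.Agent.H71R3.WD2

/-!
# MP_f4bd1c_an, Q1: partial affirmative answer

Property `(F_*)`, even with joint replaced by separate weak* continuity, holds for every semigroup
with topology in the class `EA`, the smallest class containing all commutative semigroups and all
finite groups and closed under extensions, directed (dense) unions, continuous homomorphic images
(with dense range) and passing from a left ideal to the semigroup. In particular it holds for all
discrete elementary amenable groups.
-/

set_option autoImplicit false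

universe u v w

namespace Pool.Agent.Results.MP_f4bd1c_an.ElementaryClass

open Filter Topology Set

/-- The distance of two functionals in the norm of the dual `E*`. -/
noncomputable def dualDist {𝕜 : Type w} [RCLike 𝕜] {E : Type v} [NormedAddCommGroup E]
    [NormedSpace 𝕜 E] (x y : WeakDual 𝕜 E) : ℝ :=
  ‖WeakDual.toStrongDual x - WeakDual.toStrongDual y‖

/-- `T` is a norm nonexpansive representation of `S` on `C ⊆ E*` which is separately continuous for
the weak* topology of `C`. -/
structure IsRep {𝕜 : Type w} [RCLike 𝕜] {S : Type u} [Semigroup S] [TopologicalSpace S]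
    {E : Type v} [NormedAddCommGroup E] [NormedSpace 𝕜 E] (C : Set (WeakDual 𝕜 E))
    (T : S → C → C) : Prop where
  mul : ∀ s t x, T (s * t) x = T s (T t x)
  nonexpansive : ∀ s (x y : C), dualDist (T s x : WeakDual 𝕜 E) (T s y) ≤ dualDist (x : WeakDual 𝕜 E) y
  continuous_left : ∀ x, Continuous fun s => T s x
  continuous_right : ∀ s, Continuous (T s)

/-- Property `(F_*)` for Banach spaces over `𝕜`, in a strong form: for every Banach space `E`, every
norm nonexpansive representation `T` of `S` on a nonempty convex weak* compact set `C ⊆ E*` which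
is separately continuous for the weak* topology of `C` has a common fixed point. (In `(F_*)` joint
continuity is assumed.) -/
def FStarSep (𝕜 : Type w) [RCLike 𝕜] (S : Type u) [Semigroup S] [TopologicalSpace S] : Prop :=
  ∀ (E : Type v) [NormedAddCommGroup E] [NormedSpace 𝕜 E] [CompleteSpace E]
    (C : Set (WeakDual 𝕜 E)), C.Nonempty → Convex ℝ C → IsCompact C →
    ∀ T : S → C → C, IsRep C T → ∃ x, ∀ s, T s x = x

/-- The smallest class of semigroups with a topology such that:
* commutative semigroups and finite groups belong to it;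
* if a nonempty left ideal `I` of `S` belongs to it, so does `S`;
* if `S` belongs to it and `f : S → Q` is a continuous homomorphism with dense range, then `Q`
  belongs to it;
* if `S` has a directed nonempty family of subsemigroups belonging to it with dense union, then `S`
  belongs to it;
* if `π : S → Q` is a homomorphism that is a topological quotient map, `N` is a subsemigroup of `S`
  with `N s ⊆ s N` for all `s`, and `π s = π t` implies `s N ∩ t N ≠ ∅`, and `N` and `Q` belong to
  it, then `S` belongs to it. -/
inductive EA : (S : Type u) → [Semigroup S] → [TopologicalSpace S] → Prop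
  | comm (S : Type u) [Semigroup S] [TopologicalSpace S] : (∀ a b : S, a * b = b * a) → EA S
  | finite (G : Type u) [Group G] [TopologicalSpace G] [Finite G] : EA G
  | left_ideal (S : Type u) [Semigroup S] [TopologicalSpace S] (I : Subsemigroup S) :
      (I : Set S).Nonempty → (∀ s : S, ∀ a ∈ I, s * a ∈ I) → EA I → EA S
  | image (S Q : Type u) [Semigroup S] [TopologicalSpace S] [Semigroup Q] [TopologicalSpace Q]
      (f : S →ₙ* Q) : Continuous f → DenseRange f → EA S → EA Q
  | union (S : Type u) [Semigroup S] [TopologicalSpace S] (H : Set (Subsemigroup S)) :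
      H.Nonempty → DirectedOn (· ≤ ·) H → Dense {s : S | ∃ N ∈ H, s ∈ N} → (∀ N ∈ H, EA N) → EA S
  | ext (S Q : Type u) [Semigroup S] [TopologicalSpace S] [Semigroup Q] [TopologicalSpace Q]
      (N : Subsemigroup S) (π : S →ₙ* Q) : IsQuotientMap π →
      (∀ s : S, ∀ n ∈ N, ∃ n' ∈ N, n * s = s * n') →
      (∀ s t : S, π s = π t → ∃ n ∈ N, ∃ m ∈ N, s * n = t * m) → EA N → EA Q → EA S

section

variable {𝕜 : Type w} [RCLike 𝕜] {E : Type v} [NormedAddCommGroup E] [NormedSpace 𝕜 E]
  [CompleteSpace E]

open Pool.Agent.H71R3.WD

theorem good_of_EA (S : Type u) [i1 : Semigroup S] [i2 : TopologicalSpace S] (h : EA S) :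
    Good (fun x : WeakDual 𝕜 E => ‖WeakDual.toStrongDual x‖) S := by
  induction h with
  | comm S h => exact good_comm sys_dual S h
  | finite G => exact good_finite sys_dual G
  | left_ideal S I h1 h2 _ ih => exact good_left_ideal S I h1 h2 ih
  | image S Q f h1 h2 _ ih => exact good_image S Q f h1 h2 ih
  | union S H h1 h2 h3 _ ih => exact good_union S H h1 h2 h3 ih
  | ext S Q N π h1 h2 h3 _ _ ih1 ih2 => exact good_ext sys_dual S Q N π h1 h2 h3 ih1 ih2

end

open Pool.Agent.H71R3.WD in
/-- **Partial affirmative answer to Q1 of MP_f4bd1c_an.** -/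
theorem result (𝕜 : Type w) [RCLike 𝕜] :
    ∀ (S : Type u) [Semigroup S] [TopologicalSpace S], EA S → FStarSep.{u, v, w} 𝕜 S := by
  classical
  intro S _ _ hS E _ _ _ C hne hc hC T hrep
  obtain ⟨hT, hn, hcont, hcont'⟩ := hrep
  have hG := good_of_EA (𝕜 := 𝕜) (E := E) S hS
  let T' : S → WeakDual 𝕜 E → WeakDual 𝕜 E := fun s x => if h : x ∈ C then (T s ⟨x, h⟩) else x
  have hT' : ∀ s (x : C), T' s x = T s x := fun s x => by
    simp only [T', x.2, dif_pos]
  obtain ⟨x, hx, hx'⟩ := hG C C ∅ hne hc hC
    ⟨by simp, by simp, by simp, Subset.rfl, fun D hD h1 _ _ _ => by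
      obtain ⟨d, hd⟩ := h1
      exact ⟨d, hd, hD hd⟩, hC.isClosed⟩ T'
    ⟨fun x hx => by
      have e : (fun s => T' s x) = fun s => ((T s ⟨x, hx⟩ : C) : WeakDual 𝕜 E) := by
        funext s; exact hT' s ⟨x, hx⟩
      rw [e]
      exact continuous_subtype_val.comp (hcont ⟨x, hx⟩),
      fun s => by
        rw [continuousOn_iff_continuous_restrict]
        have e : C.domRestrict (T' s) = fun x : C => ((T s x : C) : WeakDual 𝕜 E) := by
          funext x; exact hT' s x
        rw [e]
        exact continuous_subtype_val.comp (hcont' s),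
      fun s x hx => by
        rw [hT' s ⟨x, hx⟩]
        exact (T s ⟨x, hx⟩).2,
      fun s t x hx => by
        rw [hT' (s * t) ⟨x, hx⟩, hT' t ⟨x, hx⟩, hT' s, hT],
      fun s x hx y hy => by
        rw [hT' s ⟨x, hx⟩, hT' s ⟨y, hy⟩]
        have h1 := hn s ⟨x, hx⟩ ⟨y, hy⟩
        unfold dualDist at h1
        simpa only [map_sub] using h1⟩
  refine ⟨⟨x, hx⟩, fun s => Subtype.ext ?_⟩
  rw [← hT' s ⟨x, hx⟩]
  exact hx' s

end Pool.Agent.Results.MP_f4bd1c_an.ElementaryClass
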